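import Pool.Agent.helper16.SCV.Spec

set_option autoImplicit false

namespace Pool.Agent.SCV

open Finset ArithmeticFunction MeasureTheory
open Pool.Agent.SCT

/-- the measure of a set of large values from well spaced points -/
theorem LVP_count (D : ℝ → ℝ) (T V M : ℝ)
    (hW : ∀ W : Finset ℝ, (∀ t ∈ W, 0 ≤ t ∧ t ≤ 2 * T) → (∀ t ∈ W, ∀ s ∈ W, t ≠ s → 1 ≤ |t - s|) →
      (∀ t ∈ W, V ≤ D t) → (W.card : ℝ) ≤ M) :
    volume {t : ℝ | t ∈ Set.Icc 0 T ∧ V ≤ D (2 * t)} ≤ ENNReal.ofReal (2 * M) := by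
  classical
  have hM0 : 0 ≤ M := by
    have := hW ∅ (by simp) (by simp) (by simp)
    simpa using this
  set K : Finset ℕ := (Finset.range (⌊2 * T⌋₊ + 1)).filter
    (fun k => ∃ u : ℝ, (k : ℝ) ≤ u ∧ u < k + 1 ∧ u ≤ 2 * T ∧ V ≤ D u) with hK
  have hu : ∀ k : ℕ, ∃ u : ℝ, k ∈ K → ((k : ℝ) ≤ u ∧ u < k + 1 ∧ u ≤ 2 * T ∧ V ≤ D u) := by
    intro k
    by_cases hk : k ∈ K
    · rw [hK, Finset.mem_filter] at hk
      obtain ⟨u, hu⟩ := hk.2
      exact ⟨u, fun _ => hu⟩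
    · exact ⟨0, fun h => absurd h hk⟩
  choose u hu using hu
  have hinj : ∀ j : ℕ, Set.InjOn u ((K.filter (fun k => k % 2 = j)) : Set ℕ) := by
    intro j a ha b hb hab
    rw [Finset.mem_coe, Finset.mem_filter] at ha hb
    have h1 := hu a ha.1
    have h2 := hu b hb.1
    rw [hab] at h1
    have h3 : (a : ℝ) < b + 1 := by linarith
    have h4 : (b : ℝ) < a + 1 := by linarith
    have h3' : a < b + 1 := by exact_mod_cast h3
    have h4' : b < a + 1 := by exact_mod_cast h4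
    omega
  have hcard : ∀ j : ℕ, (((K.filter (fun k => k % 2 = j)).card : ℕ) : ℝ) ≤ M := by
    intro j
    rw [← Finset.card_image_of_injOn (hinj j)]
    apply hW
    · intro t ht
      rw [Finset.mem_image] at ht
      obtain ⟨a, ha, rfl⟩ := ht
      rw [Finset.mem_filter] at ha
      have h1 := hu a ha.1
      have h0 : (0 : ℝ) ≤ a := by positivity
      exact ⟨by linarith, h1.2.2.1⟩
    · intro t ht s hs hne
      rw [Finset.mem_image] at ht hs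
      obtain ⟨a, ha, rfl⟩ := ht
      obtain ⟨b, hb, rfl⟩ := hs
      rw [Finset.mem_filter] at ha hb
      have h1 := hu a ha.1
      have h2 := hu b hb.1
      have hab : a ≠ b := fun h => hne (by rw [h])
      rcases lt_or_gt_of_ne hab with hlt | hlt
      · have h3 : a + 2 ≤ b := by omega
        have h3' : (a : ℝ) + 2 ≤ b := by exact_mod_cast h3
        rw [abs_sub_comm]
        exact le_trans (by linarith) (le_abs_self _)
      · have h3 : b + 2 ≤ a := by omega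
        have h3' : (b : ℝ) + 2 ≤ a := by exact_mod_cast h3
        exact le_trans (by linarith) (le_abs_self _)
    · intro t ht
      rw [Finset.mem_image] at ht
      obtain ⟨a, ha, rfl⟩ := ht
      rw [Finset.mem_filter] at ha
      exact (hu a ha.1).2.2.2
  have hK2 : ((K.card : ℕ) : ℝ) ≤ 2 * M := by
    have h1 : K.card = (K.filter (fun k => k % 2 = 0)).card + (K.filter (fun k => k % 2 = 1)).card := by
      rw [← Finset.card_filter_add_card_filter_not (s := K) (p := fun k => k % 2 = 0)]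
      congr 2
      apply Finset.filter_congr
      intro k _
      omega
    rw [h1]
    push_cast
    linarith [hcard 0, hcard 1]
  have hsub : {t : ℝ | t ∈ Set.Icc 0 T ∧ V ≤ D (2 * t)} ⊆
      ⋃ k ∈ K, Set.Icc ((k : ℝ) / 2) (((k : ℝ) + 1) / 2) := by
    rintro t ⟨⟨ht0, htT⟩, htV⟩
    have h1 : ((⌊2 * t⌋₊ : ℕ) : ℝ) ≤ 2 * t := Nat.floor_le (by linarith)
    have h2 : 2 * t < ((⌊2 * t⌋₊ : ℕ) : ℝ) + 1 := Nat.lt_floor_add_one _
    rw [Set.mem_iUnion₂]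
    refine ⟨⌊2 * t⌋₊, ?_, ?_, ?_⟩
    · rw [hK, Finset.mem_filter, Finset.mem_range]
      refine ⟨?_, 2 * t, h1, h2, by linarith, htV⟩
      have : ⌊2 * t⌋₊ ≤ ⌊2 * T⌋₊ := Nat.floor_le_floor (by linarith)
      omega
    · linarith
    · linarith
  refine (measure_mono hsub).trans ((measure_biUnion_finset_le _ _).trans ?_)
  have h5 : ∀ k ∈ K, volume (Set.Icc ((k : ℝ) / 2) (((k : ℝ) + 1) / 2)) = ENNReal.ofReal (1 / 2) := by
    intro k _
    rw [Real.volume_Icc]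
    congr 1
    ring
  rw [Finset.sum_congr rfl h5, Finset.sum_const, nsmul_eq_mul, ← ENNReal.ofReal_natCast, ← ENNReal.ofReal_mul (by positivity)]
  apply ENNReal.ofReal_le_ofReal
  linarith

/-- the arithmetic of the exponents -/
theorem LVP_exp {ε κ C : ℝ} (hε : 0 < ε) (hκ : 4 * ε = κ) (hC : 0 < C) {x : ℝ} (hx : 1 ≤ x)
    (hbig : 18 * 3 ^ ε * C ≤ x ^ (κ / 2)) {b : ℝ} :
    2 * (C * (3 * x ^ (13231 / 10000 : ℝ)) ^ ε * (x ^ 2 / (x ^ (1 - b)) ^ 2 +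
      ((3 * x ^ (13231 / 10000 : ℝ)) ^ (1 / 2 : ℝ) * x ^ 3 + (3 * x ^ (13231 / 10000 : ℝ)) ^ (6 / 7 : ℝ) * x ^ (18 / 7 : ℝ) +
        (3 * x ^ (13231 / 10000 : ℝ)) * x ^ 2) / (x ^ (1 - b)) ^ 4)) ≤
      x ^ κ * (x ^ (2 * b) + x ^ (4 * b - 184 / 625)) := by
  have hx0 : 0 < x := by linarith
  have hT : ∀ e : ℝ, (3 * x ^ (13231 / 10000 : ℝ)) ^ e = 3 ^ e * x ^ (13231 / 10000 * e) := by
    intro e
    rw [Real.mul_rpow (by norm_num) (by positivity), ← Real.rpow_mul hx0.le]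
  have h2 : x ^ 2 / (x ^ (1 - b)) ^ 2 = x ^ (2 * b) := by
    rw [← Real.rpow_natCast x 2, ← Real.rpow_natCast (x ^ (1 - b)) 2, ← Real.rpow_mul hx0.le, ← Real.rpow_sub hx0]
    congr 1
    push_cast
    ring
  have hV4 : (x ^ (1 - b)) ^ 4 = x ^ (4 - 4 * b) := by
    rw [← Real.rpow_natCast (x ^ (1 - b)) 4, ← Real.rpow_mul hx0.le]
    congr 1
    push_cast
    ring
  have h3a : (3 * x ^ (13231 / 10000 : ℝ)) ^ (1 / 2 : ℝ) * x ^ 3 / x ^ (4 - 4 * b) ≤ 3 * x ^ (4 * b - 184 / 625) := by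
    rw [hT, mul_assoc, mul_div_assoc]
    apply mul_le_mul
    · calc (3 : ℝ) ^ (1 / 2 : ℝ) ≤ 3 ^ (1 : ℝ) := Real.rpow_le_rpow_of_exponent_le (by norm_num) (by norm_num)
        _ = 3 := Real.rpow_one 3
    · rw [← Real.rpow_natCast x 3, ← Real.rpow_add hx0, ← Real.rpow_sub hx0]
      apply Real.rpow_le_rpow_of_exponent_le hx
      push_cast
      linarith
    · positivity
    · norm_num
  have h3b : (3 * x ^ (13231 / 10000 : ℝ)) ^ (6 / 7 : ℝ) * x ^ (18 / 7 : ℝ) / x ^ (4 - 4 * b) ≤ 3 * x ^ (4 * b - 184 / 625) := by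
    rw [hT, mul_assoc, mul_div_assoc]
    apply mul_le_mul
    · calc (3 : ℝ) ^ (6 / 7 : ℝ) ≤ 3 ^ (1 : ℝ) := Real.rpow_le_rpow_of_exponent_le (by norm_num) (by norm_num)
        _ = 3 := Real.rpow_one 3
    · rw [← Real.rpow_add hx0, ← Real.rpow_sub hx0]
      apply Real.rpow_le_rpow_of_exponent_le hx
      linarith
    · positivity
    · norm_num
  have h3c : (3 * x ^ (13231 / 10000 : ℝ)) * x ^ 2 / x ^ (4 - 4 * b) ≤ 3 * x ^ (4 * b - 184 / 625) := by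
    rw [mul_assoc, mul_div_assoc]
    apply mul_le_mul_of_nonneg_left _ (by norm_num)
    rw [← Real.rpow_natCast x 2, ← Real.rpow_add hx0, ← Real.rpow_sub hx0]
    apply Real.rpow_le_rpow_of_exponent_le hx
    push_cast
    linarith
  have hP1 : 0 ≤ x ^ (2 * b) := by positivity
  have hP2 : 0 ≤ x ^ (4 * b - 184 / 625) := by positivity
  have h4 : x ^ 2 / (x ^ (1 - b)) ^ 2 +
      ((3 * x ^ (13231 / 10000 : ℝ)) ^ (1 / 2 : ℝ) * x ^ 3 + (3 * x ^ (13231 / 10000 : ℝ)) ^ (6 / 7 : ℝ) * x ^ (18 / 7 : ℝ) +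
        (3 * x ^ (13231 / 10000 : ℝ)) * x ^ 2) / (x ^ (1 - b)) ^ 4 ≤ 9 * (x ^ (2 * b) + x ^ (4 * b - 184 / 625)) := by
    rw [h2, hV4, add_div, add_div]
    linarith
  have h5 : (3 * x ^ (13231 / 10000 : ℝ)) ^ ε ≤ 3 ^ ε * x ^ (κ / 2) := by
    rw [hT]
    apply mul_le_mul_of_nonneg_left _ (by positivity)
    apply Real.rpow_le_rpow_of_exponent_le hx
    linarith
  have h6 : x ^ κ = x ^ (κ / 2) * x ^ (κ / 2) := by
    rw [← Real.rpow_add hx0]
    congr 1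
    ring
  have hS : 0 ≤ x ^ (2 * b) + x ^ (4 * b - 184 / 625) := by positivity
  calc _ ≤ 2 * (C * (3 ^ ε * x ^ (κ / 2)) * (9 * (x ^ (2 * b) + x ^ (4 * b - 184 / 625)))) := by
        apply mul_le_mul_of_nonneg_left _ (by norm_num)
        apply mul_le_mul _ h4 (by positivity) (by positivity)
        exact mul_le_mul_of_nonneg_left h5 hC.le
    _ = (18 * 3 ^ ε * C) * (x ^ (κ / 2) * (x ^ (2 * b) + x ^ (4 * b - 184 / 625))) := by ring
    _ ≤ x ^ (κ / 2) * (x ^ (κ / 2) * (x ^ (2 * b) + x ^ (4 * b - 184 / 625))) :=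
        mul_le_mul_of_nonneg_right hbig (by positivity)
    _ = _ := by rw [h6]; ring

theorem LVP (h : LVT_stmt) : LVP_stmt := by
  intro κ hκ
  obtain ⟨C, hC, hL⟩ := h (κ / 4) (by positivity)
  have ht : Filter.Tendsto (fun x : ℕ => (x : ℝ) ^ (κ / 2)) Filter.atTop Filter.atTop :=
    (tendsto_rpow_atTop (show 0 < κ / 2 by positivity)).comp tendsto_natCast_atTop_atTop
  obtain ⟨x₁, hx₁⟩ := Filter.eventually_atTop.1 (ht.eventually_ge_atTop (18 * 3 ^ (κ / 4) * C))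
  refine ⟨max x₁ 1, fun x hx c hc T _hT1 hT b _hb0 _hb => ?_⟩
  have hx1 : 1 ≤ x := le_trans (le_max_right _ _) hx
  have hx1' : (1 : ℝ) ≤ x := by exact_mod_cast hx1
  have hx0' : (0 : ℝ) < x := by linarith
  have hbig := hx₁ x (le_trans (le_max_left _ _) hx)
  have hTx : (x : ℝ) ≤ (x : ℝ) ^ (13231 / 10000 : ℝ) := by
    calc (x : ℝ) = (x : ℝ) ^ (1 : ℝ) := (Real.rpow_one _).symm
      _ ≤ _ := Real.rpow_le_rpow_of_exponent_le hx1' (by norm_num)
  have hcount := LVP_count (fun u => ‖DC c x u‖) T ((x : ℝ) ^ (1 - b))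
    (C * (3 * (x : ℝ) ^ (13231 / 10000 : ℝ)) ^ (κ / 4) * ((x : ℝ) ^ 2 / ((x : ℝ) ^ (1 - b)) ^ 2 +
      ((3 * (x : ℝ) ^ (13231 / 10000 : ℝ)) ^ (1 / 2 : ℝ) * (x : ℝ) ^ 3 +
        (3 * (x : ℝ) ^ (13231 / 10000 : ℝ)) ^ (6 / 7 : ℝ) * (x : ℝ) ^ (18 / 7 : ℝ) +
        (3 * (x : ℝ) ^ (13231 / 10000 : ℝ)) * (x : ℝ) ^ 2) / ((x : ℝ) ^ (1 - b)) ^ 4)) (by
      intro W hW1 hW2 hW3
      refine hL (3 * (x : ℝ) ^ (13231 / 10000 : ℝ)) x (fun m => (c m : ℂ)) ((x : ℝ) ^ (1 - b)) W ?_ hx1 ?_ ?_ ?_ ?_ hW2 hW3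
      · linarith
      · linarith
      · positivity
      · intro n _
        rw [Complex.norm_real]
        exact hc n
      · intro t htW
        have := hW1 t htW
        exact ⟨this.1, by linarith⟩)
  refine hcount.trans (ENNReal.ofReal_le_ofReal ?_)
  exact LVP_exp (by positivity) (by ring) hC hx1' hbig

end Pool.Agent.SCV
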