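import Pool.Agent.helper16.SCV.Spec
import Pool.Agent.helper16.LW.All

/-!
# Project SCV (MP_ad8ced_nt), row LVT: large values theorem
-/

set_option autoImplicit false

namespace Pool.Agent.SCV

open Finset
open Pool.Agent.SCT

theorem LVT : LVT_stmt := by
  intro ε hε
  obtain ⟨C, hC, h⟩ := Pool.Agent.LW.l_fin ε hε
  refine ⟨C, hC, fun T N a V W hT hN hNT hV ha hW hsep hval => ?_⟩
  refine h T 0 N a V W hT hN hNT hV ha ?_ hsep ?_
  · intro t ht
    rw [zero_add]
    exact hW t ht
  · intro t ht
    refine (hval t ht).trans (le_of_eq ?_)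
    congr 1
    refine Finset.sum_congr rfl fun n hn => ?_
    rw [nu_cpow t (by have := (Finset.mem_Ioc.1 hn).1; omega)]

end Pool.Agent.SCV
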