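import Pool.Agent.helper16.SCV.Lem

/-!
# Project SCV (MP_ad8ced_nt), row MVP: mean value theorem and Chebyshev's inequality
-/

set_option autoImplicit false

namespace Pool.Agent.SCV

open Finset ArithmeticFunction MeasureTheory
open Pool.Agent.SCT

private theorem MVP_int (c : ℕ → ℝ) (x : ℕ) (T : ℝ) (hT : 0 ≤ T) :
    ∫ t in Set.Icc 0 T, ‖DC c x (2 * t)‖ ^ 2 ≤ ∫ u in (-(2 * T))..(2 * T), ‖Pool.Agent.CH.DPb (x + 1) (cD c x) u‖ ^ 2 := by
  have e1 : ∀ u : ℝ, Pool.Agent.CH.DPb (x + 1) (cD c x) u = DC c x (-u) := by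
    intro u
    rw [DC_Bk]
    unfold Pool.Agent.CH.DPb Bk nu
    rw [neg_neg]
  have hc2 : Continuous fun u : ℝ => ‖DC c x u‖ ^ 2 := (DC_cont c x).norm.pow 2
  rw [integral_Icc_eq_integral_Ioc, ← intervalIntegral.integral_of_le hT,
    intervalIntegral.integral_comp_mul_left (fun u => ‖DC c x u‖ ^ 2) (by norm_num : (2 : ℝ) ≠ 0)]
  have e2 : ∫ u in (-(2 * T))..(2 * T), ‖Pool.Agent.CH.DPb (x + 1) (cD c x) u‖ ^ 2 =
      ∫ u in (-(2 * T))..(2 * T), ‖DC c x u‖ ^ 2 := by
    refine intervalIntegral.integral_congr fun u _ => ?_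
    simp only [e1, DC_neg]
  rw [e2, mul_zero, smul_eq_mul]
  have h1 : ∫ u in (0)..(2 * T), ‖DC c x u‖ ^ 2 ≤ ∫ u in (-(2 * T))..(2 * T), ‖DC c x u‖ ^ 2 := by
    refine intervalIntegral.integral_mono_interval (by linarith) (by linarith) le_rfl
      (Filter.Eventually.of_forall fun u => by positivity) (hc2.intervalIntegrable _ _)
  have h2 : 0 ≤ ∫ u in (0)..(2 * T), ‖DC c x u‖ ^ 2 :=
    intervalIntegral.integral_nonneg (by linarith) fun u _ => by positivity
  have h3 : (2 : ℝ)⁻¹ * ∫ u in (0)..(2 * T), ‖DC c x u‖ ^ 2 ≤ 1 * ∫ u in (0)..(2 * T), ‖DC c x u‖ ^ 2 :=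
    mul_le_mul_of_nonneg_right (by norm_num) h2
  linarith

theorem MVP (hM : Pool.Agent.CH.MVT_stmt) : MVP_stmt := by
  intro κ hκ
  obtain ⟨C, hC, h⟩ := hM
  -- a large `x`
  have hlog : Filter.Tendsto (fun x : ℕ => (1 + Real.log ((x : ℝ) + 1)) / (x : ℝ) ^ κ) Filter.atTop (nhds 0) := by
    have h1 : (fun y : ℝ => Real.log y) =o[Filter.atTop] fun y : ℝ => y ^ κ := isLittleO_log_rpow_atTop hκ
    have h2 : (fun _ : ℝ => (2 : ℝ)) =o[Filter.atTop] fun y : ℝ => y ^ κ := by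
      refine (Asymptotics.isLittleO_const_left (c := (2 : ℝ))).2 (Or.inr ?_)
      refine Filter.Tendsto.congr' ?_ (tendsto_rpow_atTop hκ)
      filter_upwards [Filter.eventually_ge_atTop (0 : ℝ)] with y hy
      simp only [Function.comp, Real.norm_eq_abs]
      rw [abs_of_nonneg (Real.rpow_nonneg hy _)]
    have h3 : (fun y : ℝ => 2 + Real.log y) =o[Filter.atTop] fun y : ℝ => y ^ κ := h2.add h1
    have h4 : Filter.Tendsto (fun y : ℝ => (2 + Real.log y) / y ^ κ) Filter.atTop (nhds 0) := h3.tendsto_div_nhds_zero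
    have h5 := h4.comp tendsto_natCast_atTop_atTop
    refine squeeze_zero' ?_ ?_ h5
    · filter_upwards [Filter.eventually_ge_atTop 1] with x hx
      have : (0 : ℝ) ≤ Real.log ((x : ℝ) + 1) := Real.log_nonneg (by linarith [(Nat.cast_nonneg x : (0 : ℝ) ≤ x)])
      positivity
    · filter_upwards [Filter.eventually_ge_atTop 1] with x hx
      have hx1 : (1 : ℝ) ≤ x := by exact_mod_cast hx
      have h6 : Real.log ((x : ℝ) + 1) ≤ 1 + Real.log x := by
        calc Real.log ((x : ℝ) + 1) ≤ Real.log (2 * x) := Real.log_le_log (by linarith) (by linarith)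
          _ = Real.log 2 + Real.log x := Real.log_mul (by norm_num) (by linarith)
          _ ≤ 1 + Real.log x := by linarith [Real.log_two_lt_d9]
      simp only [Function.comp]
      exact div_le_div_of_nonneg_right (by linarith) (by positivity)
  have hev := hlog.eventually (ge_mem_nhds (show (0 : ℝ) < 1 / (4 * C) by positivity))
  obtain ⟨x₀, hx₀⟩ := Filter.eventually_atTop.1 hev
  refine ⟨max x₀ 1, fun x hx c hc T hT hTx b hb hb2 => ?_⟩
  have hxa : x₀ ≤ x := (le_max_left _ _).trans hx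
  have hx1 : 1 ≤ x := (le_max_right _ _).trans hx
  have hx1r : (1 : ℝ) ≤ x := by exact_mod_cast hx1
  have hx0 : (0 : ℝ) < x := by linarith
  have hbig := hx₀ x hxa
  have hxk : 0 < (x : ℝ) ^ κ := by positivity
  rw [div_le_iff₀ hxk] at hbig
  set V : ℝ := (x : ℝ) ^ (1 - b) with hV
  have hV0 : 0 < V := by positivity
  set S : Set ℝ := {t : ℝ | t ∈ Set.Icc 0 T ∧ V ≤ ‖DC c x (2 * t)‖} with hS
  have hcont : Continuous fun t : ℝ => ‖DC c x (2 * t)‖ := ((DC_cont c x).comp (by fun_prop)).norm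
  have hSm : MeasurableSet S := measurableSet_Icc.inter (isClosed_le continuous_const hcont).measurableSet
  have hSsub : S ⊆ Set.Icc 0 T := fun t ht => ht.1
  have hfin : volume S ≠ ⊤ :=
    ((measure_mono hSsub).trans_lt (by rw [Real.volume_Icc]; exact ENNReal.ofReal_lt_top)).ne
  have hint : IntegrableOn (fun t => ‖DC c x (2 * t)‖ ^ 2) (Set.Icc 0 T) := (hcont.pow 2).integrableOn_Icc
  have h1 : V ^ 2 * (volume S).toReal ≤ ∫ t in Set.Icc 0 T, ‖DC c x (2 * t)‖ ^ 2 := by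
    calc V ^ 2 * (volume S).toReal = ∫ t in S, V ^ 2 := by
          rw [setIntegral_const, smul_eq_mul, Measure.real, mul_comm]
      _ ≤ ∫ t in S, ‖DC c x (2 * t)‖ ^ 2 := by
          refine setIntegral_mono_on (integrableOn_const (hs := hfin)) (hint.mono_set hSsub) hSm fun t ht => ?_
          exact pow_le_pow_left₀ hV0.le ht.2 2
      _ ≤ ∫ t in Set.Icc 0 T, ‖DC c x (2 * t)‖ ^ 2 :=
          setIntegral_mono_set hint (Filter.Eventually.of_forall fun t => by positivity) hSsub.eventuallyLE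
  have h2 := h (2 * T) (x + 1) (cD c x) (by linarith) (by omega)
  have h3 := h1.trans ((MVP_int c x T (by linarith)).trans h2)
  have h4 := cD_sq hc x
  have hlogp : (0 : ℝ) ≤ 1 + Real.log ((x : ℝ) + 1) := by
    have : (0 : ℝ) ≤ Real.log ((x : ℝ) + 1) := Real.log_nonneg (by linarith)
    linarith
  push_cast at h3
  have hTt : 2 * T + ((x : ℝ) + 1) ≤ 4 * (x : ℝ) ^ (13231 / 10000 : ℝ) := by
    have h5 : (x : ℝ) ≤ (x : ℝ) ^ (13231 / 10000 : ℝ) := by
      nth_rewrite 1 [← Real.rpow_one (x : ℝ)]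
      exact Real.rpow_le_rpow_of_exponent_le hx1r (by norm_num)
    linarith
  have h6 : V ^ 2 * (volume S).toReal ≤ (x : ℝ) ^ (κ + 23231 / 10000) := by
    refine h3.trans ?_
    calc C * (2 * T + ((x : ℝ) + 1)) * (1 + Real.log ((x : ℝ) + 1)) *
          ∑ k ∈ Ico (x + 1) (2 * (x + 1)), ‖cD c x k‖ ^ 2
        ≤ C * (4 * (x : ℝ) ^ (13231 / 10000 : ℝ)) * (1 / (4 * C) * (x : ℝ) ^ κ) * x := by
          gcongr
      _ = (x : ℝ) ^ κ * ((x : ℝ) ^ (13231 / 10000 : ℝ) * x) := by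
          field_simp
      _ = (x : ℝ) ^ (κ + 23231 / 10000) := by
          nth_rewrite 3 [← Real.rpow_one (x : ℝ)]
          rw [← Real.rpow_add hx0, ← Real.rpow_add hx0]
          norm_num
  have h7 : (volume S).toReal ≤ (x : ℝ) ^ (κ + 2 * b + 3231 / 10000) := by
    have h8 : V ^ 2 = (x : ℝ) ^ (2 - 2 * b) := by
      rw [hV, ← Real.rpow_natCast, ← Real.rpow_mul hx0.le]
      congr 1
      push_cast
      ring
    have h9 : (x : ℝ) ^ (κ + 23231 / 10000) = V ^ 2 * (x : ℝ) ^ (κ + 2 * b + 3231 / 10000) := by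
      rw [h8, ← Real.rpow_add hx0]
      congr 1
      ring
    rw [h9] at h6
    exact le_of_mul_le_mul_left h6 (by positivity)
  rw [← ENNReal.ofReal_toReal hfin]
  exact ENNReal.ofReal_le_ofReal h7

end Pool.Agent.SCV
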