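import Pool.Agent.helper16.SCV.Lem

/-!
# Project SCV (MP_ad8ced_nt), row NEC: the bad set
-/

set_option autoImplicit false

namespace Pool.Agent.SCV

open Finset ArithmeticFunction MeasureTheory
open Pool.Agent.SCT
open scoped Pointwise

/-- substitution `u = 2t` -/
private theorem NEC_sub (E : Set ℝ) (f : ℝ → ℝ) :
    ∫ t in E, f (2 * t) = (1 / 2 : ℝ) * ∫ u in (fun u : ℝ => u / 2) ⁻¹' E, f u := by
  have h0 : E = (fun t : ℝ => 2 * t) ⁻¹' ((fun u : ℝ => u / 2) ⁻¹' E) := by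
    ext t
    simp only [Set.mem_preimage]
    rw [mul_div_cancel_left₀ t (by norm_num : (2 : ℝ) ≠ 0)]
  have h1 := Measure.setIntegral_comp_smul_of_pos (μ := (volume : Measure ℝ)) (fun u : ℝ => f u) E (R := 2) (by norm_num)
  have h2 : (2 : ℝ) • E = (fun u : ℝ => u / 2) ⁻¹' E := by
    ext u
    rw [Set.mem_smul_set_iff_inv_smul_mem₀ (by norm_num : (2 : ℝ) ≠ 0), Set.mem_preimage, smul_eq_mul, div_eq_inv_mul]
  rw [h2] at h1
  simp only [smul_eq_mul, Module.finrank_self, pow_one] at h1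
  rw [h1]
  norm_num

/-- measure of the doubled set -/
private theorem NEC_vol (E : Set ℝ) : volume ((fun u : ℝ => u / 2) ⁻¹' E) = ENNReal.ofReal 2 * volume E := by
  have h2 : (2 : ℝ) • E = (fun u : ℝ => u / 2) ⁻¹' E := by
    ext u
    rw [Set.mem_smul_set_iff_inv_smul_mem₀ (by norm_num : (2 : ℝ) ≠ 0), Set.mem_preimage, smul_eq_mul, div_eq_inv_mul]
  rw [← h2, Measure.addHaar_smul]
  simp

/-- Cauchy-Schwarz twice: `∫ f p ≤ s^(1/2) (∫ f)^(1/2) (∫ p²)^(1/2)` if `f ≤ s` -/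
private theorem NEC_cs (E : Set ℝ) (f p : ℝ → ℝ) (hE : MeasurableSet E) (hf : Continuous f) (hp : Continuous p)
    (hf0 : ∀ t, 0 ≤ f t) (hp0 : ∀ t, 0 ≤ p t) (u v : ℝ) (hEs : E ⊆ Set.Icc u v) (s I K : ℝ) (hs : 0 < s)
    (hfs : ∀ t ∈ E, f t ≤ s) (hI : ∫ t in E, f t ≤ I) (hK : ∫ t in E, p t ^ 2 ≤ K) (y : ℝ) (hy : 0 < y) :
    ∫ t in E, f t * p t ≤ y * s * I + K / y := by
  have hi : ∀ h : ℝ → ℝ, Continuous h → IntegrableOn h E := fun h hh => (hh.integrableOn_Icc).mono_set hEs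
  have h1 : ∫ t in E, f t * p t ≤ ∫ t in E, (y * s * f t + p t ^ 2 / y) := by
    refine setIntegral_mono_on (hi _ (hf.mul hp)) (hi _ (by fun_prop)) hE fun t ht => ?_
    have h2 : f t * p t ≤ y * f t ^ 2 + p t ^ 2 / y := by
      have h3 : 0 ≤ (y * f t - p t) ^ 2 / y := by positivity
      have h4 : (y * f t - p t) ^ 2 / y = y * f t ^ 2 - 2 * (f t * p t) + p t ^ 2 / y := by
        field_simp
        ring
      have h5 : 0 ≤ f t * p t := mul_nonneg (hf0 t) (hp0 t)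
      linarith
    have h3 : y * f t ^ 2 ≤ y * s * f t := by
      have := mul_le_mul_of_nonneg_left (hfs t ht) (mul_nonneg hy.le (hf0 t))
      nlinarith
    linarith
  refine h1.trans ?_
  rw [integral_add (hi _ (by fun_prop)) (hi _ (by fun_prop)), integral_const_mul, integral_div]
  have h6 : y * s * ∫ t in E, f t ≤ y * s * I := mul_le_mul_of_nonneg_left hI (by positivity)
  have h7 : (∫ t in E, p t ^ 2) / y ≤ K / y := div_le_div_of_nonneg_right hK hy.le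
  linarith

theorem NEC (hNEAR : NEAR_stmt) (hVPP : VPP_stmt) (hBLK : BLK_stmt) (hTRV : TRV_stmt) : NEC_stmt := by
  intro g hg hsupp A
  obtain ⟨c₀, hN⟩ := hNEAR g hg hsupp
  obtain ⟨δ₁, C₁, x₁, hδ₁, hC₁, hN1⟩ := hN (1 / 200) (by norm_num) (by norm_num)
  obtain ⟨δ₂, C₂, x₂, hδ₂, hC₂, hB2⟩ := hBLK (1 / 200) (by norm_num) (by norm_num)
  obtain ⟨B', x₃, hV⟩ := hVPP g hg (2 * A + c₀ + 5)
  obtain ⟨_, hcont, _⟩ := hTRV g hg
  set δ : ℝ := min δ₁ δ₂ / 2 with hδdef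
  have hδ : 0 < δ := by
    have : 0 < min δ₁ δ₂ := lt_min hδ₁ hδ₂
    positivity
  have hδ1 : δ ≤ δ₁ := by
    have := min_le_left δ₁ δ₂
    have h2 : 0 < min δ₁ δ₂ := lt_min hδ₁ hδ₂
    rw [hδdef]
    linarith
  have hδ2 : 2 * δ ≤ δ₂ := by
    have := min_le_right δ₁ δ₂
    rw [hδdef]
    linarith
  refine ⟨B' + 1, δ, hδ, fun B₁ hB₁ => ?_⟩
  -- large `x`
  have t1 : Filter.Tendsto (fun x : ℕ => Real.log (x : ℝ)) Filter.atTop Filter.atTop :=
    Real.tendsto_log_atTop.comp tendsto_natCast_atTop_atTop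
  have t2 : Filter.Tendsto (fun x : ℕ => (x : ℝ) ^ δ) Filter.atTop Filter.atTop :=
    (tendsto_rpow_atTop hδ).comp tendsto_natCast_atTop_atTop
  have t3 : Filter.Tendsto (fun x : ℕ => (x : ℝ) ^ (1 / 200 : ℝ)) Filter.atTop Filter.atTop :=
    (tendsto_rpow_atTop (by norm_num)).comp tendsto_natCast_atTop_atTop
  obtain ⟨y₀, hy₀⟩ := Filter.eventually_atTop.1 ((t1.eventually_ge_atTop (max (2 ^ B' : ℝ) (max (4 * C₁) (max (8 * C₂) 1)))).and
    ((t2.eventually_ge_atTop 2).and (t3.eventually_ge_atTop 2)))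
  refine ⟨max (max x₁ x₂) (max (max x₃ y₀) 2), fun x hx c hc E hE hEs hEv => ?_⟩
  have hx1 : x₁ ≤ x := ((le_max_left _ _).trans (le_max_left _ _)).trans hx
  have hx2 : x₂ ≤ x := ((le_max_right _ _).trans (le_max_left _ _)).trans hx
  have hx3 : x₃ ≤ x := (((le_max_left _ _).trans (le_max_left _ _)).trans (le_max_right _ _)).trans hx
  have hy : y₀ ≤ x := (((le_max_right _ _).trans (le_max_left _ _)).trans (le_max_right _ _)).trans hx
  have hxn2 : 2 ≤ x := ((le_max_right _ _).trans (le_max_right _ _)).trans hx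
  obtain ⟨hL, hx2δ, hx200⟩ := hy₀ x hy
  set L : ℝ := Real.log (x : ℝ) with hLdef
  have hL1 : 1 ≤ L := ((le_max_right _ _).trans ((le_max_right _ _).trans (le_max_right _ _))).trans hL
  have hLB : (2 : ℝ) ^ B' ≤ L := (le_max_left _ _).trans hL
  have hLC1 : 4 * C₁ ≤ L := ((le_max_left _ _).trans (le_max_right _ _)).trans hL
  have hLC2 : 8 * C₂ ≤ L := ((le_max_left _ _).trans ((le_max_right _ _).trans (le_max_right _ _))).trans hL
  have hL0 : 0 < L := by linarith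
  have hxr2 : (2 : ℝ) ≤ x := by exact_mod_cast hxn2
  have hxr1 : (1 : ℝ) ≤ x := by linarith
  have hx0 : (0 : ℝ) < x := by linarith
  have hmono : ∀ u v : ℝ, u ≤ v → (x : ℝ) ^ u ≤ (x : ℝ) ^ v := fun u v huv =>
    Real.rpow_le_rpow_of_exponent_le hxr1 huv
  set T₁ : ℝ := (x : ℝ) ^ (13231 / 10000 : ℝ) with hT₁
  have hT₁0 : 0 < T₁ := by positivity
  have hT12 : 2 * T₁ ≤ (x : ℝ) ^ (4 / 3 - 1 / 200 : ℝ) := by
    calc 2 * T₁ ≤ (x : ℝ) ^ (1 / 200 : ℝ) * (x : ℝ) ^ (13231 / 10000 : ℝ) := mul_le_mul_of_nonneg_right hx200 hT₁0.le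
      _ = (x : ℝ) ^ (1 / 200 + 13231 / 10000 : ℝ) := by rw [← Real.rpow_add hx0]
      _ ≤ (x : ℝ) ^ (4 / 3 - 1 / 200 : ℝ) := hmono _ _ (by norm_num)
  have hLB1 : 1 ≤ L ^ B₁ := one_le_pow₀ hL1
  -- the three ingredients
  set s : ℝ := (x : ℝ) ^ 2 / L ^ (2 * A + c₀ + 5) with hs
  have hs0 : 0 < s := by positivity
  have hsup : ∀ t ∈ E, ‖DL g ((x : ℝ) ^ 2) t‖ ≤ s := by
    intro t ht
    obtain ⟨ha, hb⟩ := hEs ht
    have ht0 : 0 ≤ t := by linarith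
    have hxx : x₃ ≤ x ^ 2 := hx3.trans (by nlinarith)
    have hlog2 : Real.log ((x ^ 2 : ℕ) : ℝ) = 2 * L := by
      push_cast
      rw [Real.log_pow]
      push_cast
      rfl
    have h1 : Real.log ((x ^ 2 : ℕ) : ℝ) ^ B' ≤ |t| := by
      rw [hlog2, mul_pow, abs_of_nonneg ht0]
      refine le_trans ?_ ha
      calc 2 ^ B' * L ^ B' ≤ L * L ^ B' := mul_le_mul_of_nonneg_right hLB (by positivity)
        _ = L ^ (B' + 1) := by ring
        _ ≤ L ^ B₁ := pow_le_pow_right₀ hL1 hB₁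
    have h2 : |t| ≤ ((x ^ 2 : ℕ) : ℝ) ^ 2 := by
      rw [abs_of_nonneg ht0]
      refine hb.trans ?_
      push_cast
      calc T₁ ≤ (x : ℝ) ^ (4 : ℝ) := hmono _ _ (by norm_num)
        _ = ((x : ℝ) ^ 2) ^ 2 := by
            rw [← pow_mul]
            norm_num
    have h3 := hV (x ^ 2) hxx t h1 h2
    rw [hlog2] at h3
    push_cast at h3
    refine h3.trans ?_
    rw [hs]
    refine div_le_div_of_nonneg_left (by positivity) (by positivity) ?_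
    exact pow_le_pow_left₀ hL0.le (by linarith) _
  have hI : ∫ t in E, ‖DL g ((x : ℝ) ^ 2) t‖ ≤ C₁ * (x : ℝ) ^ 2 * L ^ c₀ := by
    refine hN1 x hx1 E hE ?_ (hEv.trans (ENNReal.ofReal_le_ofReal (hmono _ _ hδ1)))
    intro t ht
    obtain ⟨ha, hb⟩ := hEs ht
    refine ⟨hLB1.trans ha, hb.trans ?_⟩
    exact hmono _ _ (by norm_num)
  have hK : ∫ t in E, ‖DC c x (2 * t)‖ ^ 2 ≤ 2 * C₂ * (x : ℝ) ^ 2 * L := by
    rw [NEC_sub E (fun u => ‖DC c x u‖ ^ 2)]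
    have hE2 : MeasurableSet ((fun u : ℝ => u / 2) ⁻¹' E) := (measurable_id.div_const 2) hE
    have h1 := hB2 x hx2 ((fun u : ℝ => u / 2) ⁻¹' E) 0 hE2 (by
      intro u hu
      obtain ⟨ha, hb⟩ := hEs hu
      simp only at ha hb
      rw [Set.mem_Icc, zero_add]
      constructor
      · linarith
      · linarith) (by
      rw [NEC_vol]
      calc ENNReal.ofReal 2 * volume E ≤ ENNReal.ofReal 2 * ENNReal.ofReal ((x : ℝ) ^ δ) := by gcongr
        _ = ENNReal.ofReal (2 * (x : ℝ) ^ δ) := by rw [ENNReal.ofReal_mul (by norm_num)]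
        _ ≤ ENNReal.ofReal ((x : ℝ) ^ δ₂) := by
            refine ENNReal.ofReal_le_ofReal ?_
            calc 2 * (x : ℝ) ^ δ ≤ (x : ℝ) ^ δ * (x : ℝ) ^ δ := mul_le_mul_of_nonneg_right hx2δ (by positivity)
              _ = (x : ℝ) ^ (δ + δ) := by rw [← Real.rpow_add hx0]
              _ ≤ (x : ℝ) ^ δ₂ := hmono _ _ (by linarith)) (x + 1) (by
      push_cast
      have h2 : (x : ℝ) ^ (2 / 3 : ℝ) ≤ (x : ℝ) := by
        calc (x : ℝ) ^ (2 / 3 : ℝ) ≤ (x : ℝ) ^ (1 : ℝ) := hmono _ _ (by norm_num)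
          _ = x := Real.rpow_one _
      linarith) (by
      push_cast
      nlinarith [mul_pos hx0 hx0]) (cD c x)
    have h3 : ∫ u in (fun u : ℝ => u / 2) ⁻¹' E, ‖DC c x u‖ ^ 2 =
        ∫ u in (fun u : ℝ => u / 2) ⁻¹' E, ‖Bk (x + 1) (cD c x) u‖ ^ 2 := by
      refine integral_congr_ae (Filter.Eventually.of_forall fun u => ?_)
      simp only [DC_Bk]
    rw [h3]
    have h4 := cD_sq hc x
    have h5 : C₂ * ((x + 1 : ℕ) : ℝ) * L * ∑ m ∈ Ico (x + 1) (2 * (x + 1)), ‖cD c x m‖ ^ 2 ≤ C₂ * (2 * x) * L * x := by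
      gcongr
      push_cast
      linarith
    have h6 := h1.trans h5
    have h7 : 0 ≤ C₂ * (x : ℝ) ^ 2 * L := by positivity
    have h8 : C₂ * (2 * x) * L * x = 2 * (C₂ * (x : ℝ) ^ 2 * L) := by ring
    rw [h8] at h6
    linarith
  set y : ℝ := L ^ (A + 2) / x with hydef
  have hy0 : 0 < y := by positivity
  have hp : Continuous fun t : ℝ => ‖DC c x (2 * t)‖ := ((DC_cont c x).comp (by fun_prop)).norm
  have hf : Continuous fun t : ℝ => ‖DL g ((x : ℝ) ^ 2) t‖ := (hcont _ (by positivity)).norm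
  refine (NEC_cs E _ _ hE hf hp (fun t => norm_nonneg _) (fun t => norm_nonneg _) (L ^ B₁) T₁ hEs s _ _ hs0 hsup hI hK
    y hy0).trans ?_
  have e1 : y * s * (C₁ * (x : ℝ) ^ 2 * L ^ c₀) ≤ (x : ℝ) ^ 3 / L ^ A / 2 := by
    have h1 : y * s * (C₁ * (x : ℝ) ^ 2 * L ^ c₀) = C₁ * ((x : ℝ) ^ 3 / (L ^ A * L ^ 3)) := by
      rw [hydef, hs]
      rw [show 2 * A + c₀ + 5 = (A + 2) + c₀ + (A + 3) by ring, pow_add L (A + 2 + c₀), pow_add L (A + 2) c₀,
        pow_add L A 3]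
      field_simp
    rw [h1]
    have h2 : C₁ * ((x : ℝ) ^ 3 / (L ^ A * L ^ 3)) ≤ L / 4 * ((x : ℝ) ^ 3 / (L ^ A * L ^ 3)) :=
      mul_le_mul_of_nonneg_right (by linarith) (by positivity)
    refine h2.trans ?_
    have h3 : L / 4 * ((x : ℝ) ^ 3 / (L ^ A * L ^ 3)) = (x : ℝ) ^ 3 / L ^ A * (1 / (4 * L ^ 2)) := by
      field_simp
    rw [h3]
    have h4 : 1 / (4 * L ^ 2) ≤ 1 / 2 := by
      rw [div_le_div_iff₀ (by positivity) (by norm_num)]
      nlinarith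
    calc (x : ℝ) ^ 3 / L ^ A * (1 / (4 * L ^ 2)) ≤ (x : ℝ) ^ 3 / L ^ A * (1 / 2) :=
          mul_le_mul_of_nonneg_left h4 (by positivity)
      _ = (x : ℝ) ^ 3 / L ^ A / 2 := by ring
  have e2 : 2 * C₂ * (x : ℝ) ^ 2 * L / y ≤ (x : ℝ) ^ 3 / L ^ A / 2 := by
    have h1 : 2 * C₂ * (x : ℝ) ^ 2 * L / y = 2 * C₂ * ((x : ℝ) ^ 3 / (L ^ A * L)) := by
      rw [hydef, pow_add]
      field_simp
    rw [h1]
    have h2 : 2 * C₂ * ((x : ℝ) ^ 3 / (L ^ A * L)) ≤ L / 4 * ((x : ℝ) ^ 3 / (L ^ A * L)) :=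
      mul_le_mul_of_nonneg_right (by linarith) (by positivity)
    refine h2.trans ?_
    have h3 : L / 4 * ((x : ℝ) ^ 3 / (L ^ A * L)) = (x : ℝ) ^ 3 / L ^ A * (1 / 4) := by
      field_simp
    rw [h3]
    have h4 : 0 ≤ (x : ℝ) ^ 3 / L ^ A := by positivity
    linarith
  linarith

end Pool.Agent.SCV
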