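import Pool.Agent.helper16.SCV.Spec

/-!
# Project SCV (MP_ad8ced_nt), row PWC: prime powers in short intervals
-/

set_option autoImplicit false

namespace Pool.Agent.SCV

open Finset ArithmeticFunction MeasureTheory
open Pool.Agent.SCT

/-- the number of the `j`-th powers in a short interval -/
private theorem PWC_R (x B N K j : ℕ) (hx : 1 ≤ x) (hj : 2 ≤ j) (hN : x ^ 2 + B ≤ N) :
    (#((range K).filter fun r => N - B ≤ r ^ j ∧ r ^ j < N) : ℝ) ≤ B / x + 1 := by
  set S := (range K).filter fun r => N - B ≤ r ^ j ∧ r ^ j < N with hS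
  have hxr : (1 : ℝ) ≤ x := by exact_mod_cast hx
  rcases S.eq_empty_or_nonempty with h | h
  · rw [h]
    simp
    positivity
  · have h0 := S.min'_mem h
    have h1 := S.max'_mem h
    set a := S.min' h with ha
    set b := S.max' h with hb
    have hsub : S ⊆ Icc a b := fun m hm => mem_Icc.2 ⟨S.min'_le m hm, S.le_max' m hm⟩
    have hab : a ≤ b := S.min'_le b h1
    have hcard : #S ≤ b + 1 - a := by
      have := card_le_card hsub
      rwa [Nat.card_Icc] at this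
    rw [hS, mem_filter] at h0 h1
    obtain ⟨-, h0a, h0b⟩ := h0
    obtain ⟨-, h1a, h1b⟩ := h1
    have hbx : x ^ 2 ≤ b ^ j := by omega
    have hb1 : 1 ≤ b := by
      rcases Nat.eq_zero_or_pos b with h2 | h2
      · rw [h2, zero_pow (by omega)] at hbx
        have : 0 < x ^ 2 := by positivity
        omega
      · exact h2
    have hbj : x ≤ b ^ (j - 1) := by
      have h2 : x ^ 2 ≤ (b ^ (j - 1)) ^ 2 := by
        refine hbx.trans ?_
        rw [← pow_mul]
        exact Nat.pow_le_pow_right hb1 (by omega)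
      exact (Nat.pow_le_pow_iff_left (by norm_num)).1 h2
    have hd : (b - a) * x ≤ B := by
      have e1 : b ^ j = b * b ^ (j - 1) := by
        rw [← pow_succ', Nat.sub_add_cancel (by omega)]
      have e2 : a ^ j ≤ a * b ^ (j - 1) := by
        have : a ^ j = a * a ^ (j - 1) := by
          rw [← pow_succ', Nat.sub_add_cancel (by omega)]
        rw [this]
        exact Nat.mul_le_mul_left _ (Nat.pow_le_pow_left hab _)
      have e3 : (b - a) * b ^ (j - 1) ≤ B := by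
        rw [Nat.sub_mul]
        omega
      exact (Nat.mul_le_mul_left _ hbj).trans e3
    have hc : (#S : ℝ) ≤ b - a + 1 := by
      have : (#S : ℝ) ≤ ((b + 1 - a : ℕ) : ℝ) := by exact_mod_cast hcard
      rw [Nat.cast_sub (by omega)] at this
      push_cast at this
      linarith
    have hk : (b : ℝ) - a ≤ B / x := by
      rw [le_div_iff₀ (by positivity)]
      have h3 : (((b - a : ℕ) : ℝ)) * x ≤ B := by exact_mod_cast hd
      rwa [Nat.cast_sub hab] at h3
    linarith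

/-- the prime powers that are not primes -/
private theorem PWC_np (x B m : ℕ) (hx : 1 ≤ x) (hB : B ≤ x ^ 2) (hm : m ∈ Ioc x (2 * x)) :
    ∑ n ∈ (Ico (8 * m ^ 2 - B) (8 * m ^ 2)).filter (fun n => ¬ n.Prime), (vonMangoldt n : ℝ) ≤
      (Nat.log 2 (32 * x ^ 2) : ℝ) * (B / x + 1) * Real.log (32 * (x : ℝ) ^ 2) := by
  have hxr : (1 : ℝ) ≤ x := by exact_mod_cast hx
  rw [mem_Ioc] at hm
  have t1 : x ^ 2 ≤ m ^ 2 := Nat.pow_le_pow_left hm.1.le 2
  have t2 : m ^ 2 ≤ (2 * x) ^ 2 := Nat.pow_le_pow_left hm.2 2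
  have t3 : (2 * x) ^ 2 = 4 * x ^ 2 := by ring
  have hx2 : 0 < x ^ 2 := by positivity
  set N := 8 * m ^ 2 with hN
  set J := Nat.log 2 (32 * x ^ 2) with hJ
  set K := 32 * x ^ 2 + 1 with hK
  have hlog0 : 0 ≤ Real.log (32 * (x : ℝ) ^ 2) := Real.log_nonneg (by nlinarith)
  set R : ℕ → Finset ℕ := fun j => (range K).filter fun r => N - B ≤ r ^ j ∧ r ^ j < N with hR
  set U : Finset ℕ := (Icc 2 J).biUnion fun j => (R j).image fun r => r ^ j with hU
  have hUc : (#U : ℝ) ≤ (J : ℝ) * (B / x + 1) := by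
    have e1 : #U ≤ ∑ j ∈ Icc 2 J, #(R j) :=
      card_biUnion_le.trans (sum_le_sum fun j _ => card_image_le)
    have e2 : ((∑ j ∈ Icc 2 J, #(R j) : ℕ) : ℝ) ≤ ∑ j ∈ Icc 2 J, ((B : ℝ) / x + 1) := by
      push_cast
      refine sum_le_sum fun j hj => ?_
      exact PWC_R x B N K j hx (mem_Icc.1 hj).1 (by omega)
    rw [sum_const, Nat.card_Icc, nsmul_eq_mul] at e2
    have e3 : (((J + 1 - 2 : ℕ) : ℝ)) ≤ J := by exact_mod_cast (by omega : J + 1 - 2 ≤ J)
    have e4 : (#U : ℝ) ≤ ((∑ j ∈ Icc 2 J, #(R j) : ℕ) : ℝ) := by exact_mod_cast e1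
    have e5 : (0 : ℝ) ≤ (B : ℝ) / x + 1 := by positivity
    exact e4.trans (e2.trans (mul_le_mul_of_nonneg_right e3 e5))
  have hle : ∀ n ∈ (Ico (N - B) N).filter (fun n => ¬ n.Prime), (vonMangoldt n : ℝ) ≤
      if n ∈ U then Real.log (32 * (x : ℝ) ^ 2) else 0 := by
    intro n hn
    rw [mem_filter, mem_Ico] at hn
    have hn0 : 0 < n := by omega
    by_cases hpp : IsPrimePow n
    · have hmem : n ∈ U := by
        obtain ⟨p, k, hp, hk, rfl⟩ := hpp
        have hp' : p.Prime := Nat.prime_iff.2 hp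
        have hk2 : 2 ≤ k := by
          by_contra hc
          have hk1 : k = 1 := by omega
          rw [hk1, pow_one] at hn
          exact hn.2 hp'
        have hnK : p ^ k ≤ 32 * x ^ 2 := by omega
        rw [hU, mem_biUnion]
        refine ⟨k, mem_Icc.2 ⟨hk2, ?_⟩, ?_⟩
        · refine Nat.le_log_of_pow_le (by norm_num) ?_
          exact (Nat.pow_le_pow_left hp'.two_le k).trans hnK
        · rw [mem_image]
          refine ⟨p, ?_, rfl⟩
          rw [hR]
          simp only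
          rw [mem_filter, mem_range]
          refine ⟨?_, hn.1⟩
          have : p ≤ p ^ k := Nat.le_self_pow (by omega) p
          omega
      rw [if_pos hmem]
      refine vonMangoldt_le_log.trans (Real.log_le_log (by exact_mod_cast hn0) ?_)
      exact_mod_cast (by omega : n ≤ 32 * x ^ 2)
    · rw [vonMangoldt_eq_zero_iff.2 hpp]
      split_ifs
      · exact hlog0
      · exact le_rfl
  refine (sum_le_sum hle).trans ?_
  rw [← sum_filter, sum_const, nsmul_eq_mul]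
  refine mul_le_mul_of_nonneg_right ?_ hlog0
  refine le_trans ?_ hUc
  exact_mod_cast card_le_card fun n hn => (mem_filter.1 hn).2

/-- the primes -/
private theorem PWC_card (B m : ℕ) (hB : B ≤ 8 * m ^ 2) :
    cnb B m = #((Ico (8 * m ^ 2 - B) (8 * m ^ 2)).filter Nat.Prime) := by
  unfold cnb
  refine card_nbij' (fun b => 8 * m ^ 2 - b) (fun n => 8 * m ^ 2 - n) ?_ ?_ ?_ ?_
  · intro b hb
    rw [mem_coe, mem_filter, mem_Icc] at hb
    rw [mem_coe, mem_filter, mem_Ico]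
    have h : 8 * m ^ 2 - B ≤ 8 * m ^ 2 - b ∧ 8 * m ^ 2 - b < 8 * m ^ 2 := by omega
    exact ⟨h, hb.2⟩
  · intro n hn
    rw [mem_coe, mem_filter, mem_Ico] at hn
    rw [mem_coe, mem_filter, mem_Icc]
    have h : 1 ≤ 8 * m ^ 2 - n ∧ 8 * m ^ 2 - n ≤ B := by omega
    have h2 : 8 * m ^ 2 - (8 * m ^ 2 - n) = n := by omega
    refine ⟨h, ?_⟩
    rw [h2]
    exact hn.2
  · intro b hb
    rw [mem_coe, mem_filter, mem_Icc] at hb
    simp only
    omega
  · intro n hn
    rw [mem_coe, mem_filter, mem_Ico] at hn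
    simp only
    omega

theorem PWC : PWC_stmt := by
  have hlim := (isLittleO_log_rpow_atTop (r := 1 / 20) (by norm_num)).bound (c := 1 / 10) (by norm_num)
  obtain ⟨X, hX⟩ := Filter.eventually_atTop.1 hlim
  refine ⟨max 100 ⌈X⌉₊, fun x hx B hB hB2 m hm => ?_⟩
  have hx100 : 100 ≤ x := (le_max_left _ _).trans hx
  have hxr : (100 : ℝ) ≤ x := by exact_mod_cast hx100
  have hxX : X ≤ (x : ℝ) := (Nat.le_ceil X).trans (by exact_mod_cast (le_max_right _ _).trans hx)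
  have hxp : (0 : ℝ) < x := by linarith
  have h1 := hX x hxX
  rw [Real.norm_eq_abs, Real.norm_eq_abs, abs_of_nonneg (Real.rpow_nonneg hxp.le _)] at h1
  set L := Real.log (x : ℝ) with hL
  have hL4 : 4 ≤ L := by
    rw [hL, Real.le_log_iff_exp_le hxp]
    have e1 : Real.exp 4 = Real.exp 1 ^ 4 := by rw [← Real.exp_nat_mul]; norm_num
    rw [e1]
    have e2 := Real.exp_one_lt_d9
    have e3 : Real.exp 1 ^ 4 ≤ 2.7182818286 ^ 4 := pow_le_pow_left₀ (Real.exp_pos 1).le e2.le 4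
    norm_num at e3
    linarith
  rw [abs_of_nonneg (by linarith)] at h1
  have h2 : L ^ 2 ≤ 1 / 100 * (x : ℝ) ^ (1 / 10 : ℝ) := by
    have e1 : ((x : ℝ) ^ (1 / 20 : ℝ)) ^ 2 = (x : ℝ) ^ (1 / 10 : ℝ) := by
      rw [← Real.rpow_natCast, ← Real.rpow_mul hxp.le]
      norm_num
    rw [← e1]
    have : L ^ 2 ≤ (1 / 10 * (x : ℝ) ^ (1 / 20 : ℝ)) ^ 2 := pow_le_pow_left₀ (by linarith) h1 2
    linarith
  have hl2 := Real.log_two_lt_d9
  have hl2g := Real.log_two_gt_d9
  have h4 : Real.log (32 * (x : ℝ) ^ 2) ≤ 2 * L + 4 := by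
    rw [Real.log_mul (by norm_num) (by positivity), Real.log_pow,
      show (32 : ℝ) = 2 ^ 5 by norm_num, Real.log_pow]
    push_cast
    linarith
  have h40 : 0 ≤ Real.log (32 * (x : ℝ) ^ 2) := Real.log_nonneg (by nlinarith)
  have hmm := mem_Ioc.1 hm
  have t1 : x ^ 2 ≤ m ^ 2 := Nat.pow_le_pow_left hmm.1.le 2
  have t2 : m ^ 2 ≤ (2 * x) ^ 2 := Nat.pow_le_pow_left hmm.2 2
  have t3 : (2 * x) ^ 2 = 4 * x ^ 2 := by ring
  have hsplit : Wm B m = ∑ n ∈ (Ico (8 * m ^ 2 - B) (8 * m ^ 2)).filter Nat.Prime, (vonMangoldt n : ℝ) +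
      ∑ n ∈ (Ico (8 * m ^ 2 - B) (8 * m ^ 2)).filter (fun n => ¬ n.Prime), (vonMangoldt n : ℝ) := by
    unfold Wm
    rw [sum_filter_add_sum_filter_not]
  have hnp := PWC_np x B m (by omega) hB2 hm
  have hnp0 : 0 ≤ ∑ n ∈ (Ico (8 * m ^ 2 - B) (8 * m ^ 2)).filter (fun n => ¬ n.Prime), (vonMangoldt n : ℝ) :=
    sum_nonneg fun _ _ => vonMangoldt_nonneg
  have hcard := PWC_card B m (by omega)
  have hcr : (cnb B m : ℝ) = ∑ n ∈ (Ico (8 * m ^ 2 - B) (8 * m ^ 2)).filter Nat.Prime, (1 : ℝ) := by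
    rw [hcard, sum_const, nsmul_eq_mul, mul_one]
  constructor
  · have e1 : 2 * L * cnb B m ≤ ∑ n ∈ (Ico (8 * m ^ 2 - B) (8 * m ^ 2)).filter Nat.Prime, (vonMangoldt n : ℝ) := by
      rw [hcr, mul_sum]
      refine sum_le_sum fun n hn => ?_
      rw [mem_filter, mem_Ico] at hn
      rw [vonMangoldt_apply_prime hn.2, mul_one]
      have e2 : Real.log ((x : ℝ) ^ 2) = 2 * L := by
        rw [Real.log_pow, hL]
        norm_num
      rw [← e2]
      exact Real.log_le_log (by positivity) (by exact_mod_cast (by omega : x ^ 2 ≤ n))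
    linarith
  · have e1 : ∑ n ∈ (Ico (8 * m ^ 2 - B) (8 * m ^ 2)).filter Nat.Prime, (vonMangoldt n : ℝ) ≤
        2 * L * (1 + 10 / L) * cnb B m := by
      rw [hcr, mul_sum]
      refine sum_le_sum fun n hn => ?_
      rw [mem_filter, mem_Ico] at hn
      rw [vonMangoldt_apply_prime hn.2, mul_one]
      have e2 : 2 * L * (1 + 10 / L) = 2 * L + 20 := by
        field_simp
        ring
      rw [e2]
      have e3 : Real.log n ≤ Real.log (32 * (x : ℝ) ^ 2) :=
        Real.log_le_log (by exact_mod_cast hn.2.pos) (by exact_mod_cast (by omega : n ≤ 32 * x ^ 2))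
      linarith
    have e2 : (Nat.log 2 (32 * x ^ 2) : ℝ) ≤ 5 * L := by
      have e3 : (Nat.log 2 (32 * x ^ 2) : ℝ) * Real.log 2 ≤ Real.log (32 * (x : ℝ) ^ 2) := by
        have e4 : 2 ^ Nat.log 2 (32 * x ^ 2) ≤ 32 * x ^ 2 := Nat.pow_log_le_self 2 (by positivity)
        have e5 : Real.log ((2 : ℝ) ^ Nat.log 2 (32 * x ^ 2)) ≤ Real.log (32 * (x : ℝ) ^ 2) :=
          Real.log_le_log (by positivity) (by exact_mod_cast e4)
        rwa [Real.log_pow] at e5
      have e6 : (Nat.log 2 (32 * x ^ 2) : ℝ) * (69 / 100) ≤ (Nat.log 2 (32 * x ^ 2) : ℝ) * Real.log 2 :=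
        mul_le_mul_of_nonneg_left (by linarith) (Nat.cast_nonneg _)
      nlinarith
    have e3 : (Nat.log 2 (32 * x ^ 2) : ℝ) * (B / x + 1) * Real.log (32 * (x : ℝ) ^ 2) ≤
        B * (x : ℝ) ^ (-(1 / 10) : ℝ) := by
      have hB0 : (0 : ℝ) ≤ B := Nat.cast_nonneg B
      have f1 : (x : ℝ) ^ (1 / 2 : ℝ) * (x : ℝ) ^ (-(1 / 2) : ℝ) = 1 := by
        rw [← Real.rpow_add hxp]
        norm_num
      have f2 : (1 : ℝ) ≤ B * (x : ℝ) ^ (-(1 / 2) : ℝ) := by
        calc (1 : ℝ) = (x : ℝ) ^ (1 / 2 : ℝ) * (x : ℝ) ^ (-(1 / 2) : ℝ) := f1.symm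
          _ ≤ B * (x : ℝ) ^ (-(1 / 2) : ℝ) := mul_le_mul_of_nonneg_right hB (by positivity)
      have f3 : (B : ℝ) / x ≤ B * (x : ℝ) ^ (-(1 / 2) : ℝ) := by
        rw [div_eq_mul_inv, ← Real.rpow_neg_one]
        exact mul_le_mul_of_nonneg_left (Real.rpow_le_rpow_of_exponent_le (by linarith) (by norm_num)) hB0
      have f4 : (B : ℝ) / x + 1 ≤ 2 * (B * (x : ℝ) ^ (-(1 / 2) : ℝ)) := by linarith
      calc (Nat.log 2 (32 * x ^ 2) : ℝ) * (B / x + 1) * Real.log (32 * (x : ℝ) ^ 2)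
          ≤ (5 * L) * (2 * (B * (x : ℝ) ^ (-(1 / 2) : ℝ))) * (3 * L) := by
            have f5 : Real.log (32 * (x : ℝ) ^ 2) ≤ 3 * L := by linarith
            gcongr
        _ = 30 * L ^ 2 * (B * (x : ℝ) ^ (-(1 / 2) : ℝ)) := by ring
        _ ≤ 30 * (1 / 100 * (x : ℝ) ^ (1 / 10 : ℝ)) * (B * (x : ℝ) ^ (-(1 / 2) : ℝ)) := by gcongr
        _ = 3 / 10 * (B * ((x : ℝ) ^ (1 / 10 : ℝ) * (x : ℝ) ^ (-(1 / 2) : ℝ))) := by ring
        _ ≤ 1 * (B * (x : ℝ) ^ (-(1 / 10) : ℝ)) := by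
            rw [← Real.rpow_add hxp]
            have f6 : (x : ℝ) ^ (1 / 10 + -(1 / 2) : ℝ) ≤ (x : ℝ) ^ (-(1 / 10) : ℝ) :=
              Real.rpow_le_rpow_of_exponent_le (by linarith) (by norm_num)
            gcongr
            norm_num
        _ = B * (x : ℝ) ^ (-(1 / 10) : ℝ) := one_mul _
    linarith

end Pool.Agent.SCV
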