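import Pool.Agent.helper94.SCT.All
import Pool.Agent.helper4.CH.MVT
import Pool.Agent.helper16.SCV.LVT
import Pool.Agent.helper16.SCV.LVP
import Pool.Agent.helper16.SCV.MVP
import Pool.Agent.helper16.SCV.LVE
import Pool.Agent.helper16.SCV.NEC
import Pool.Agent.helper16.SCV.PWC
import Pool.Agent.helper3.SCV.FOC
import Pool.Agent.helper3.SCV.INC
import Pool.Agent.helper80.SCV.SZC
import Pool.Agent.helper80.SCV.LOC
import Pool.Agent.helper80.SCV.UPC
import Pool.Agent.helper9.SCV.FAC
import Pool.Agent.helper25.SCV.ALM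

/-!
# Project SCV (MP_ad8ced_nt): assembly of the rows
-/

set_option autoImplicit false

namespace Pool.Agent.SCV.All

open Pool.Agent.SCT Pool.Agent.SCT.All Pool.Agent.SCV

theorem FOC_all : FOC_stmt := FOC INV_all DEC_all TRV_all
theorem LVP_all : LVP_stmt := LVP LVT
theorem MVP_all : MVP_stmt := MVP Pool.Agent.CH.MVT
theorem FAC_all : FAC_stmt := FAC TRV_all BOX_all MES_all LVP_all MVP_all LVE
theorem NEC_all : NEC_stmt := NEC NEAR_all VPP_all BLK_all TRV_all
theorem INC_all : INC_stmt := INC FOC_all DEC_all TRV_all PNF_all FAC_all NEC_all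
theorem LOC_all : LOC_stmt := LOC BMP INC_all SZC
theorem UPC_all : UPC_stmt := UPC BMP INC_all SZC
theorem ALM_all : ALM_stmt := ALM LOC_all UPC_all PWC

end Pool.Agent.SCV.All
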