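import Pool.Agent.helper16.SCV.Spec

/-!
# Project SCV (MP_ad8ced_nt): basic facts about `DC`
-/

set_option autoImplicit false

namespace Pool.Agent.SCV

open Finset ArithmeticFunction MeasureTheory
open Pool.Agent.SCT

/-- the coefficients of `DC` in the block `[x+1, 2(x+1))` -/
noncomputable def cD (c : ℕ → ℝ) (x m : ℕ) : ℂ := if m ≤ 2 * x then (c m : ℂ) else 0

theorem DC_cont (c : ℕ → ℝ) (x : ℕ) : Continuous (DC c x) := by
  unfold DC
  exact continuous_finsetSum _ fun m _ => continuous_const.mul (nu_cont m)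

theorem DC_le {c : ℕ → ℝ} (hc : ∀ m, |c m| ≤ 1) (x : ℕ) (t : ℝ) : ‖DC c x t‖ ≤ x := by
  unfold DC
  refine (norm_sum_le _ _).trans ?_
  have h1 : ∀ m ∈ Ioc x (2 * x), ‖(c m : ℂ) * nu t m‖ ≤ 1 := by
    intro m _
    rw [norm_mul, nu_norm, mul_one, Complex.norm_real, Real.norm_eq_abs]
    exact hc m
  refine (Finset.sum_le_sum h1).trans (le_of_eq ?_)
  rw [Finset.sum_const, Nat.card_Ioc, nsmul_eq_mul, mul_one]
  congr 1
  omega

theorem DC_neg (c : ℕ → ℝ) (x : ℕ) (t : ℝ) : ‖DC c x (-t)‖ = ‖DC c x t‖ := by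
  have h : DC c x (-t) = (starRingEnd ℂ) (DC c x t) := by
    unfold DC
    rw [map_sum]
    refine Finset.sum_congr rfl fun m _ => ?_
    rw [map_mul, Complex.conj_ofReal, nu_neg]
  rw [h, RCLike.norm_conj]

theorem DC_Bk (c : ℕ → ℝ) (x : ℕ) (t : ℝ) : DC c x t = Bk (x + 1) (cD c x) t := by
  unfold DC Bk
  have hsub : Ioc x (2 * x) ⊆ Ico (x + 1) (2 * (x + 1)) := by
    intro m hm
    have := Finset.mem_Ioc.1 hm
    exact Finset.mem_Ico.2 ⟨by omega, by omega⟩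
  rw [← Finset.sum_subset hsub]
  · refine Finset.sum_congr rfl fun m hm => ?_
    unfold cD
    rw [if_pos (Finset.mem_Ioc.1 hm).2]
  · intro m hm hn
    have h1 := Finset.mem_Ico.1 hm
    have h2 : ¬ m ≤ 2 * x := fun h => hn (Finset.mem_Ioc.2 ⟨by omega, h⟩)
    unfold cD
    rw [if_neg h2, zero_mul]

theorem cD_sq {c : ℕ → ℝ} (hc : ∀ m, |c m| ≤ 1) (x : ℕ) :
    ∑ m ∈ Ico (x + 1) (2 * (x + 1)), ‖cD c x m‖ ^ 2 ≤ (x : ℝ) := by
  have hsub : Ioc x (2 * x) ⊆ Ico (x + 1) (2 * (x + 1)) := by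
    intro m hm
    have := Finset.mem_Ioc.1 hm
    exact Finset.mem_Ico.2 ⟨by omega, by omega⟩
  rw [← Finset.sum_subset hsub]
  · have h1 : ∀ m ∈ Ioc x (2 * x), ‖cD c x m‖ ^ 2 ≤ 1 := by
      intro m hm
      unfold cD
      rw [if_pos (Finset.mem_Ioc.1 hm).2, Complex.norm_real, Real.norm_eq_abs]
      have := hc m
      have h0 := abs_nonneg (c m)
      nlinarith
    refine (Finset.sum_le_sum h1).trans (le_of_eq ?_)
    rw [Finset.sum_const, Nat.card_Ioc, nsmul_eq_mul, mul_one]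
    congr 1
    omega
  · intro m hm hn
    have h1 := Finset.mem_Ico.1 hm
    have h2 : ¬ m ≤ 2 * x := fun h => hn (Finset.mem_Ioc.2 ⟨by omega, h⟩)
    unfold cD
    rw [if_neg h2, norm_zero]
    norm_num

end Pool.Agent.SCV
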