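import Pool.Agent.helper94.SCT.Spec

/-!
# Project SCV (MP_ad8ced_nt): small constant terms for almost all `p`

THEOREM (ALM).  Let `A` and `κ > 0` be fixed, `x` large, `x^0.677 ≤ B ≤ x²`.  For all but `x/(log x)^A` of the integers
`n` in `(x, 2x]` (so for almost all primes `n = p`) the number of the `b ≤ B` with `8n² - b` prime is
`(1 ± κ) B/(2 log x)`.

METHOD.  As in project SCT (helper94/SCT/Spec.lean, same notation), with an ARBITRARY real coefficient `c m`, `|c m| ≤ 1`,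
`x < m ≤ 2x` (the indicator function of the exceptional set) in place of `Λ(m) φ(log(m/x))`: the polynomial `P(2t)`
is now `D(2t) = ∑ c m m^(-2it)` of length `x`, for which we have no zeros.  Let `T = x^1.3231`, `F` of length `x²` over `Λ`.
(1) FAR: a zero with real part `1 - a` near `t`: `|F(t)| ≤ x^(2-2a)` on a set of measure `T^(9/4 a) ≤ x^(2.977 a)` (NineFourths);
`|D(2t)| ≥ x^(1-b)` on a set of measure at most `x^(2b + 0.3231)` (mean value theorem) and at most `x^(2b) + x^(4b - 0.2944)` (hand-in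
LargeValues of MP_4467b5_nt with `N = x`: `T^(6/7) N^(18/7) V^(-4)`).  If all of `2.977 a`, `2b + 0.3231`, `max(2b, 4b - 0.2944)` are
`≥ 2a + b - γ`, then `b ≤ 0.977 a + γ` and either `2a ≤ b + γ`, `a ≤ 2γ`, or `0.931 a ≥ 0.2944 - 4γ` and `1.023 a ≤ 0.3231 + 2γ`: impossible
for `γ < 5·10^(-5)`, since `0.2944 · 1.023 > 0.3231 · 0.931`.  So `∫ |F(t) D(2t)| ≤ x^(3-κ)` outside of the set `E` of the `t`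
with a zero with real part `≥ 1 - δ₁` nearby.
(2) NEAR: on `E` (measure `x^δ`, `t ≥ (log x)^B₁`): `∫ |F| |D(2t)| ≤ sup |F|^(1/2) (∫ |F|)^(1/2) (∫ |D(2t)|²)^(1/2)`; `|F| ≤ x² (log x)^(-A')` (VPP for
the length `x²`), `∫_E |F| ≤ x² (log x)^c` (NEAR), `∫_E |D(2t)|² ≤ C x² log x` (BLK): together `x³ (log x)^(-A)`.
(3) `|t| ≤ (log x)^B₁`: the prime number theorem (PNF); `|t| > T`: the decay of `w^(ηt)`.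

RULES.  File `Pool/Agent/<seat>/SCV/XX.lean`, `import Pool.Agent.helper16.SCV.Spec`, `namespace Pool.Agent.SCV`,
`theorem XX (h1 : YY_stmt) ... : XX_stmt` (hypotheses: the statements named in the docstring, from this file or from
SCT/Spec.lean), auxiliary lemmas prefixed `XX_` and private where possible.  Never change this file.  If a
statement is wrong or inconvenient tell helper16 at once.  No `convert`/`congr!`, no `native_decide`, no straight double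
quotes.  Most rows are close to a row of SCT: copy and change (the private lemmas of the SCT files may be copied).
-/

set_option autoImplicit false

namespace Pool.Agent.SCV

open Finset ArithmeticFunction MeasureTheory
open Pool.Agent.SCT

/-- the Dirichlet polynomial `∑ c m m^(-it)`, `x < m ≤ 2x` -/
noncomputable def DC (c : ℕ → ℝ) (x : ℕ) (t : ℝ) : ℂ := ∑ m ∈ Ioc x (2 * x), (c m : ℂ) * nu t m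

/-- the smoothed weighted number of the `n` near `8m²`, summed over `m` with the coefficients `c m` -/
noncomputable def Spc (c : ℕ → ℝ) (g w : ℝ → ℝ) (x : ℕ) (η : ℝ) : ℝ :=
  ∑ m ∈ Ioc x (2 * x), c m * ∑' n : ℕ, vonMangoldt n * g (Real.log ((n : ℝ) / (x : ℝ) ^ 2)) *
    w ((Real.log n - Real.log (8 * (m : ℝ) ^ 2)) / η)

/-- the expected value of `Spc` -/
noncomputable def S0c (c : ℕ → ℝ) (g w : ℝ → ℝ) (x : ℕ) (η : ℝ) : ℝ :=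
  ∑ m ∈ Ioc x (2 * x), c m * ∫ y in Set.Ioi (0 : ℝ), g (Real.log (y / (x : ℝ) ^ 2)) *
    w ((Real.log y - Real.log (8 * (m : ℝ) ^ 2)) / η)

/-- `∑ Λ(n)`, `8m² - B ≤ n < 8m²` -/
noncomputable def Wm (B m : ℕ) : ℝ := ∑ n ∈ Ico (8 * m ^ 2 - B) (8 * m ^ 2), vonMangoldt n

/-- **FOC** (medium; adaptation of helper94/SCT/FOU.lean: `φ(log(m/x)) Λ(m)` is replaced by `c m`, `x < m ≤ 2x`).  From INV (`σ = 0`, for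
`w`), DEC, TRV as there. -/
def FOC_stmt : Prop := ∀ g w : ℝ → ℝ, Sm g → Sm w → ∀ (c : ℕ → ℝ) (x : ℕ) (η : ℝ), 1 ≤ x → 0 < η →
  |Spc c g w x η - S0c c g w x η| ≤ η * ∫ t : ℝ, ‖Mt w (((η * t : ℝ) : ℂ) * Complex.I)‖ *
    (‖DL g ((x : ℝ) ^ 2) t - F0 g x t‖ * ‖DC c x (2 * t)‖)

/-- **SZC** (short, medium; compare helper49/SCT/SZA.lean).  For `x < m ≤ 2x` and `w(v) ≠ 0`: `log(8m² e^(ηv)/x²) = log 8 + 2 log(m/x) + ηv`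
is in `[1.1, 3.95]`, so `g = 1` there, and with `y = 8m² e^(ηv)` the inner integral of `S0c` is `8m² η ∫ w(v) e^(ηv) dv`. -/
def SZC_stmt : Prop := ∀ g w : ℝ → ℝ, Sm g → Sm w → (∀ u, w u ≠ 0 → -2 ≤ u ∧ u ≤ 1) →
  (∀ u, 11 / 10 ≤ u → u ≤ 79 / 20 → g u = 1) → ∀ (c : ℕ → ℝ) (x : ℕ) (η : ℝ), 1 ≤ x → 0 < η → η ≤ 1 / 4 →
  S0c c g w x η = 8 * (η * ∫ v : ℝ, w v * Real.exp (η * v)) * ∑ m ∈ Ioc x (2 * x), c m * (m : ℝ) ^ 2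

/-- **LVT** (short; helper16).  Hand-in LargeValues of MP_4467b5_nt without `G ≤ N`. -/
def LVT_stmt : Prop := ∀ ε : ℝ, 0 < ε → ∃ C : ℝ, 0 < C ∧ ∀ (T : ℝ) (N : ℕ) (a : ℕ → ℂ) (V : ℝ) (W : Finset ℝ), 1 ≤ T → 1 ≤ N →
  (N : ℝ) ≤ T → 0 < V → (∀ n ∈ Ioc N (2 * N), ‖a n‖ ≤ 1) → (∀ t ∈ W, 0 ≤ t ∧ t ≤ T) →
  (∀ t ∈ W, ∀ s ∈ W, t ≠ s → 1 ≤ |t - s|) → (∀ t ∈ W, V ≤ ‖∑ n ∈ Ioc N (2 * N), a n * nu t n‖) →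
  (W.card : ℝ) ≤ C * T ^ ε * ((N : ℝ) ^ 2 / V ^ 2 + (T ^ (1 / 2 : ℝ) * (N : ℝ) ^ 3 +
    T ^ (6 / 7 : ℝ) * (N : ℝ) ^ (18 / 7 : ℝ) + T * (N : ℝ) ^ 2) / V ^ 4)

/-- **LVP** (medium).  From LVT with `N = x`, `T = 3x^1.3231`, `V = x^(1-b)`, `a n = c n`: `1/2 · 1.3231 - 1`, `6/7 · 1.3231 - 10/7`, `1.3231 - 2` are
`≤ -0.2944`.  For `j = 0, 1` let `W_j` contain one point `u` with `‖DC c x u‖ ≥ V` of each interval `[k, k+1)`, `k ≡ j mod 2`, `0 ≤ k ≤ 2T`, in which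
there is one: distances `≥ 1`.  The set of the `u` in `[0, 2T]` has measure `≤ |W_0| + |W_1|`, and `u = 2t`. -/
def LVP_stmt : Prop := ∀ κ : ℝ, 0 < κ → ∃ x₀ : ℕ, ∀ x : ℕ, x₀ ≤ x → ∀ c : ℕ → ℝ, (∀ m, |c m| ≤ 1) →
  ∀ T : ℝ, 1 ≤ T → T ≤ (x : ℝ) ^ (13231 / 10000 : ℝ) → ∀ b : ℝ, 0 ≤ b → b ≤ 1 / 2 →
  volume {t : ℝ | t ∈ Set.Icc 0 T ∧ (x : ℝ) ^ (1 - b) ≤ ‖DC c x (2 * t)‖} ≤
    ENNReal.ofReal ((x : ℝ) ^ κ * ((x : ℝ) ^ (2 * b) + (x : ℝ) ^ (4 * b - 184 / 625)))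

/-- **MVP** (short).  From `Pool.Agent.CH.MVT_stmt` (helper17/CH/SpecW.lean; proved in helper4/CH/MVT.lean) with `2T` and `K = x + 1`: `∫_0^T ‖DC c x (2t)‖² dt ≤ C (2T + x + 1)(1 + log(x+1)) x`, and Chebyshev's inequality. -/
def MVP_stmt : Prop := ∀ κ : ℝ, 0 < κ → ∃ x₀ : ℕ, ∀ x : ℕ, x₀ ≤ x → ∀ c : ℕ → ℝ, (∀ m, |c m| ≤ 1) →
  ∀ T : ℝ, 1 ≤ T → T ≤ (x : ℝ) ^ (13231 / 10000 : ℝ) → ∀ b : ℝ, 0 ≤ b → b ≤ 1 / 2 →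
  volume {t : ℝ | t ∈ Set.Icc 0 T ∧ (x : ℝ) ^ (1 - b) ≤ ‖DC c x (2 * t)‖} ≤
    ENNReal.ofReal ((x : ℝ) ^ (κ + 2 * b + 3231 / 10000))

/-- **LVE** (medium; adaptation of helper94/SCT/LVL.lean; helper16).  Level sets; the exponent inequality of the header, (1). -/
def LVE_stmt : Prop := ∀ δ : ℝ, 0 < δ → ∃ κ x₀ : ℝ, 0 < κ ∧ κ ≤ 1 / 2 ∧ ∀ x T : ℝ, x₀ ≤ x → 1 ≤ T →
  T ≤ x ^ (13231 / 10000 : ℝ) → ∀ f p : ℝ → ℝ, Continuous f → Continuous p → (∀ t, 0 ≤ f t) → (∀ t, 0 ≤ p t) →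
  (∀ t ∈ Set.Icc 0 T, f t ≤ x ^ (2 + κ) ∧ p t ≤ x ^ (1 + κ)) →
  (∀ a : ℝ, 0 ≤ a → a ≤ 1 / 2 → ∃ S : Set ℝ, MeasurableSet S ∧ volume S ≤ ENNReal.ofReal (x ^ κ * T ^ (9 / 4 * a)) ∧
    ∀ t ∈ Set.Icc 0 T, t ∉ S → f t ≤ x ^ (2 - 2 * a + κ)) →
  (∀ b : ℝ, 0 ≤ b → b ≤ 1 / 2 →
    volume {t : ℝ | t ∈ Set.Icc 0 T ∧ x ^ (1 - b) ≤ p t} ≤ ENNReal.ofReal (x ^ κ * (x ^ (2 * b) + x ^ (4 * b - 184 / 625))) ∧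
    volume {t : ℝ | t ∈ Set.Icc 0 T ∧ x ^ (1 - b) ≤ p t} ≤ ENNReal.ofReal (x ^ (κ + 2 * b + 3231 / 10000))) →
  ∃ E : Set ℝ, MeasurableSet E ∧ volume E ≤ ENNReal.ofReal (x ^ δ) ∧
    ∫ t in Set.Icc 0 T \ E, f t * p t ≤ x ^ (3 - κ)

/-- **FAC** (medium; adaptation of helper89/SCT/FAR.lean).  From TRV, BOX, MES (SCT), LVP, MVP, LVE.  `κ₁` from LVE; the part on `f = ‖DL g (x²) ·‖`
exactly as there (`T ≤ x^1.3231 ≤ x^(4/3)`); `p t = ‖DC c x (2t)‖ ≤ x`, continuous; LVP and MVP with `κ₁`. -/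
def FAC_stmt : Prop := ∀ g : ℝ → ℝ, Sm g → ∀ δ : ℝ, 0 < δ → ∃ (κ : ℝ) (x₀ : ℕ), 0 < κ ∧
  ∀ x : ℕ, x₀ ≤ x → ∀ T : ℝ, 1 ≤ T → T ≤ (x : ℝ) ^ (13231 / 10000 : ℝ) → ∀ c : ℕ → ℝ, (∀ m, |c m| ≤ 1) →
  ∃ E : Set ℝ, MeasurableSet E ∧ volume E ≤ ENNReal.ofReal ((x : ℝ) ^ δ) ∧
    ∫ t in Set.Icc 0 T \ E, ‖DL g ((x : ℝ) ^ 2) t‖ * ‖DC c x (2 * t)‖ ≤ (x : ℝ) ^ (3 - κ)

/-- **NEC** (medium).  From NEAR, VPP, BLK, TRV (SCT).  `ε = 1/200` in NEAR and in BLK (`x^1.3231 ≤ x^(4/3-1/200)/2`), `c` from NEAR, `δ` half the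
minimum of the two `δ`.  `∫_E ‖F‖ ‖D(2t)‖ ≤ sup ‖F‖^(1/2) (∫_E ‖F‖)^(1/2) (∫_E ‖D(2t)‖²)^(1/2)`.  `∫_E ‖F‖ ≤ C x² (log x)^c` (NEAR).  VPP for
the natural number `x²` in place of `x`, exponent `2A + c + 4`: `‖F‖ ≤ x²/(2 log x)^(2A+c+4)` for `(2 log x)^B' ≤ |t| ≤ x⁴`; `B₁ = 2B' + 1` or so.
`∫_E ‖DC c x (2t)‖² dt = 1/2 ∫_(2E) ‖DC c x u‖² du`, BLK for `2E`, `M = x + 1`, `a m = c m` for `x < m ≤ 2x`, `0` for `m = 2x + 1` (`DC` is then `Bk M a`):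
`≤ C (x+1) log x · x`. -/
def NEC_stmt : Prop := ∀ g : ℝ → ℝ, Sm g → (∀ u, g u ≠ 0 → 1 ≤ u ∧ u ≤ 4) → ∀ A : ℕ, ∃ (B₀ : ℕ) (δ : ℝ), 0 < δ ∧
  ∀ B₁ : ℕ, B₀ ≤ B₁ → ∃ x₀ : ℕ, ∀ x : ℕ, x₀ ≤ x → ∀ c : ℕ → ℝ, (∀ m, |c m| ≤ 1) → ∀ E : Set ℝ, MeasurableSet E →
  E ⊆ Set.Icc (Real.log x ^ B₁) ((x : ℝ) ^ (13231 / 10000 : ℝ)) → volume E ≤ ENNReal.ofReal ((x : ℝ) ^ δ) →
  ∫ t in E, ‖DL g ((x : ℝ) ^ 2) t‖ * ‖DC c x (2 * t)‖ ≤ (x : ℝ) ^ 3 / Real.log x ^ A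

/-- **INC** (medium, long; adaptation of helper54/SCT/INT.lean).  From FOC, DEC, TRV, PNF (SCT), FAC, NEC.  `L = log x`.  `B₀`, `δ` from NEC with `A + 2`,
`B₁ = max B₀ (A + 3)`; FAC with `δ`; `T = x^(1/20000)/η ≤ 32 x^1.32305 ≤ x^1.3231`; PNF with `B = B₁` and the exponent `B₁ + A + 2`.  The integrand is
even in its size (TRV; `c` is real).  `|t| ≤ L^B₁`: `≤ C L^B₁ x²/L^(B₁+A+2) · x`.  `|t| > T`: `‖Mt w (iηt)‖ ≤ C_k (ηt)^(-k)`, `k` with `k/20000 ≥ 10`: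
`≤ 1`.  `L^B₁ < |t| ≤ T`: `‖F0‖ ≤ C x²/t²` (DEC), contribution `C x³/L^B₁`; `‖DL g‖ ‖DC‖` outside of `E`: `x^(3-κ)` (FAC), on
`E ∩ [L^B₁, T]`: NEC. -/
def INC_stmt : Prop := ∀ g w : ℝ → ℝ, Sm g → Sm w → (∀ u, g u ≠ 0 → 1 ≤ u ∧ u ≤ 4) → ∀ A : ℕ,
  ∃ x₀ : ℕ, ∀ x : ℕ, x₀ ≤ x → ∀ η : ℝ, (x : ℝ) ^ (-(1323 / 1000 : ℝ)) / 32 ≤ η → η ≤ 1 →
  ∀ c : ℕ → ℝ, (∀ m, |c m| ≤ 1) → |Spc c g w x η - S0c c g w x η| ≤ η * ((x : ℝ) ^ 3 / Real.log x ^ A)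

/-- **PWC** (medium; compare helper17/SCT/PPW.lean).  The primes `q` in `[8m² - B, 8m²)` correspond to the `b` (`q = 8m² - b`), and
`2 log x + 1 ≤ log q ≤ 2 log x + 3.5` (`7x² ≤ q ≤ 32x²`).  Prime powers `q^j`, `2 ≤ j ≤ 5 log x`: for every `j` there are at most `B/x + 1` of them
(`q'^j - q^j ≥ x (q' - q)` if `q^j ≥ 7x²`, `j ≥ 2`), each with `Λ ≤ log(32x²)`; together `≤ C (B/x + 1)(log x)² ≤ B x^(-1/10)`. -/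
def PWC_stmt : Prop := ∃ x₀ : ℕ, ∀ x : ℕ, x₀ ≤ x → ∀ B : ℕ, (x : ℝ) ^ (1 / 2 : ℝ) ≤ B → B ≤ x ^ 2 → ∀ m ∈ Ioc x (2 * x),
  2 * Real.log x * cnb B m ≤ Wm B m ∧
  Wm B m ≤ 2 * Real.log x * (1 + 10 / Real.log x) * cnb B m + B * (x : ℝ) ^ (-(1 / 10) : ℝ)

/-- **LOC** (medium; compare helper30/SCT/LOW.lean).  From BMP (SCT), INC, SZC.  `κ ≤ 1`.  `J ≥ 8/κ`, `κ₁ = κ/32`; `g` = BMP for `(1, 4, 1/20)`,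
`w` = BMP for `(-1, 0, κ₁)`; `j < J`: `z_j = B/(8x²(1+(j+1)/J)²) ≤ 1/8`, `η_j = -log(1-z_j)`, `z_j ≤ η_j ≤ 2z_j`, `η_j ≥ B/(32x²) ≥ x^(-1.323)/32`.  `E_j`: the `m` in
`(x(1+j/J), x(1+(j+1)/J)]` with `Wm B m ≤ (1-κ)B`, `c` its indicator function.  If `w ≠ 0` then `8m² - B ≤ 8m²(1-z_j) < n < 8m²`, so
`Spc ≤ ∑_(E_j) Wm B m ≤ (1-κ) B #E_j`.  INC (`A + 1`) and SZC: `Spc ≥ 8 (η_j ∫ w e^(η_j v)) ∑_(E_j) m² - η_j x³/L^(A+1)`,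
`η_j ∫ w e^(η_j v) ≥ z_j(1-4κ₁)`, `8 z_j m² ≥ B ((J+j)/(J+j+1))² ≥ B (1-2/J)`.  So `B #E_j κ/2 ≤ 2z_j x³/L^(A+1) ≤ B x/L^(A+1)`, sum over `j < J`. -/
def LOC_stmt : Prop := ∀ (κ : ℝ) (A : ℕ), 0 < κ → ∃ x₀ : ℕ, ∀ x : ℕ, x₀ ≤ x → ∀ B : ℕ,
  (x : ℝ) ^ (677 / 1000 : ℝ) ≤ B → B ≤ x ^ 2 →
  (#((Ioc x (2 * x)).filter fun m => Wm B m ≤ (1 - κ) * B) : ℝ) ≤ x / Real.log x ^ A

/-- **UPC** (medium; compare helper13/SCT/UPP.lean).  From BMP (SCT), INC, SZC, as LOC: `w` = BMP for `(-1-κ₁, κ₁, κ₁)`, `z_j = B/(8x²(1+j/J)²) ≤ 1/8`,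
`η_j = -log(1-z_j)`.  For `m` in `(x(1+j/J), x(1+(j+1)/J)]` and `8m² - B ≤ n < 8m²` the weights `g`, `w` are `1`, so
`(1+κ) B #E_j ≤ ∑_(E_j) Wm B m ≤ Spc`; `η ∫ w e^(ηv) ≤ z_j + 4κ₁η_j ≤ z_j(1+8κ₁)`, `8 z_j m² ≤ B ((J+j+1)/(J+j))² ≤ B (1 + 3/J)`. -/
def UPC_stmt : Prop := ∀ (κ : ℝ) (A : ℕ), 0 < κ → ∃ x₀ : ℕ, ∀ x : ℕ, x₀ ≤ x → ∀ B : ℕ,
  (x : ℝ) ^ (677 / 1000 : ℝ) ≤ B → B ≤ x ^ 2 →
  (#((Ioc x (2 * x)).filter fun m => (1 + κ) * B ≤ Wm B m) : ℝ) ≤ x / Real.log x ^ A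

/-- **ALM** (short).  From LOC, UPC (`κ/4`, `A + 1`), PWC. -/
def ALM_stmt : Prop := ∀ (κ : ℝ) (A : ℕ), 0 < κ → ∃ x₀ : ℕ, ∀ x : ℕ, x₀ ≤ x → ∀ B : ℕ,
  (x : ℝ) ^ (677 / 1000 : ℝ) ≤ B → B ≤ x ^ 2 →
  (#((Ioc x (2 * x)).filter fun n => κ * (B / (2 * Real.log x)) < |(cnb B n : ℝ) - B / (2 * Real.log x)|) : ℝ) ≤
    x / Real.log x ^ A

end Pool.Agent.SCV
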